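import Pool.Agent.PLG.Stmts

/-!
# Row PAR of squad PLG: pigeonhole over the parallel lines
-/

set_option autoImplicit false

namespace Pool.Agent.PLG.H25

open Pool.Agent.PLG

open Classical in
theorem par : ParStmt := by
  intro E _ _ f G P p₀ z hD hP hP1
  obtain ⟨p, hp, hmax⟩ := Finset.exists_max_image P
    (fun p => (P.filter (fun q => q - p ∈ lin z)).card) hP
  refine ⟨p, hp, ?_⟩
  have key : (P ×ˢ bl f (lz G z) 4).card ≤
      (P.filter (fun q => q - p ∈ lin z)).card * (bl f G 5).card := by
    refine Finset.card_le_mul_card_image_of_maps_to (f := fun a : ℂ × ℂ => a.1 - p₀ + a.2) ?_ _ ?_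
    · rintro ⟨q, v⟩ h
      rw [Finset.mem_product] at h
      have h1 := add_mem_bl hD (hP1 q h.1) (bl_sub hD lz_le h.2)
      have h2 : (1 : ℝ) + 4 = 5 := by norm_num
      rwa [h2] at h1
    · intro w _
      rcases Finset.eq_empty_or_nonempty
        ((P ×ˢ bl f (lz G z) 4).filter fun a : ℂ × ℂ => a.1 - p₀ + a.2 = w) with hne | hne
      · rw [hne, Finset.card_empty]
        exact Nat.zero_le _
      · obtain ⟨⟨q, v⟩, hqv⟩ := hne
        rw [Finset.mem_filter, Finset.mem_product] at hqv
        refine le_trans ?_ (hmax q hqv.1.1)
        refine Finset.card_le_card_of_injOn (fun a => a.1) ?_ ?_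
        · rintro ⟨q', v'⟩ h'
          rw [Finset.mem_coe, Finset.mem_filter, Finset.mem_product] at h'
          rw [Finset.mem_coe, Finset.mem_filter]
          refine ⟨h'.1.1, ?_⟩
          have e : q' - q = v - v' := by
            have e1 := hqv.2
            have e2 := h'.2
            simp only at e1 e2
            linear_combination e2 - e1
          change q' - q ∈ lin z
          rw [e]
          exact (lin z).sub_mem ((mem_bl (hD.lz z)).1 hqv.1.2).1.2
            ((mem_bl (hD.lz z)).1 h'.1.2).1.2
        · rintro ⟨q', v'⟩ h' ⟨q'', v''⟩ h'' heq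
          rw [Finset.mem_coe, Finset.mem_filter] at h' h''
          have e1 := h'.2
          have e2 := h''.2
          simp only at e1 e2 heq
          subst heq
          have e3 : v' = v'' := by linear_combination e1 - e2
          rw [e3]
  rw [Finset.card_product] at key
  unfold cnt
  rw [mul_comm ((bl f G 5).card : ℝ)]
  exact_mod_cast key

end Pool.Agent.PLG.H25
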